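import Mathlib
import Pool.Agent.H.MP_2aafb6_co.A

namespace Pool.Agent.Results.MP_2aafb6_co.Shift

open Pool.Agent.H.MP_2aafb6_co Finset

/-- The sequence a 0, ..., a n is admissible for b, c. -/
def Adm (b c n : ℕ) (a : ℕ → ℤ) : Prop :=
  a 0 = 0 ∧ (∀ i < n, a i < a (i + 1)) ∧ ∀ i, i + b ≤ n → a (i + b) ≤ a i + c

def Hits (k n : ℕ) (a : ℕ → ℤ) : Prop := ∃ i j, i < j ∧ j ≤ n ∧ a j - a i = k

/-- Least positive n such that every admissible sequence hits k (infinity if none). -/
noncomputable def N (b c k : ℕ) : ℕ∞ :=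
  sInf ((fun n : ℕ => (n : ℕ∞)) '' {n | 0 < n ∧ ∀ a, Adm b c n a → Hits k n a})

def Av (b c k n : ℕ) : Prop := ∃ a, Adm b c n a ∧ ¬ Hits k n a

theorem mono {b c n : ℕ} {a : ℕ → ℤ} (h : Adm b c n a) {i j : ℕ} (hij : i ≤ j) (hj : j ≤ n) :
    a i + j - i ≤ a j := by
  induction j, hij using Nat.le_induction with
  | base => omega
  | succ j _ ih =>
    have := h.2.1 j (by omega)
    have := ih (by omega)
    push_cast
    omega

theorem span {b c n : ℕ} {a : ℕ → ℤ} (h : Adm b c n a) (hb : b ≤ n) {i j : ℕ} (hij : i ≤ j)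
    (hj : j ≤ n) (hj' : j ≤ i + b) : a j - a i ≤ j - i + c - b := by
  have h1 := h.2.2 (min i (n - b)) (by omega)
  have h2 := mono h (i := min i (n - b)) (j := i) (by omega) (by omega)
  have h3 := mono h (i := j) (j := min i (n - b) + b) (by omega) (by omega)
  push_cast at h3
  omega

theorem wide {b c k n : ℕ} {a : ℕ → ℤ} (h : Adm b c n a) (hk : 0 < k) (hn : ¬ Hits k n a) {i : ℕ}
    (hi : i + k ≤ n) : a i + 2 * k ≤ a (i + k) := by
  by_contra hlt
  obtain ⟨x, hx, y, hy, hxy, e⟩ := exists_ne_map_eq_of_card_lt_of_maps_to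
    (s := range (k + 1)) (t := Ico (0 : ℤ) k) (by simp) (f := fun j => a (i + j) % k)
    fun j _ => by
      simpa using ⟨Int.emod_nonneg _ (by omega), Int.emod_lt_of_pos _ (by omega)⟩
  wlog hl : x < y generalizing x y
  · exact this y hy x hx hxy.symm e.symm (by omega)
  simp only [mem_range] at hx hy
  have h1 := mono h (i := i) (j := i + x) (by omega) (by omega)
  have h2 := mono h (i := i + x) (j := i + y) (by omega) (by omega)
  have h3 := mono h (i := i + y) (j := i + k) (by omega) (by omega)
  obtain ⟨q, hq⟩ := Int.ModEq.dvd (show a (i + x) ≡ a (i + y) [ZMOD k] from e)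
  have hq1 : 0 < q := by
    by_contra hq0
    have : (k : ℤ) * q ≤ 0 := mul_nonpos_of_nonneg_of_nonpos (by omega) (by omega)
    push_cast at h2
    omega
  have hq2 : q < 2 := by
    by_contra hq0
    have : (k : ℤ) * 2 ≤ k * q := mul_le_mul_of_nonneg_left (by omega) (by omega)
    push_cast at h1 h3
    omega
  obtain rfl : q = 1 := by omega
  exact hn ⟨i + x, i + y, by omega, by omega, by omega⟩

theorem top {b e k n : ℕ} {a : ℕ → ℤ} (h : Adm b (b + e) n a) (hk : 0 < k) (he : e < b)
    (hb : b ≤ n) (hn : ¬ Hits k n a) : a n < 2 * e + k := by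
  classical
  have h0 := h.1
  have he2 := span h hb (i := 0) (j := e) (by omega) (by omega) (by omega)
  have he3 := mono h (i := 0) (j := e) (by omega) (by omega)
  push_cast at he2 he3
  by_contra hlt
  have hex : ∃ j, j ≤ n ∧ a e + k ≤ a j := ⟨n, le_rfl, by omega⟩
  obtain ⟨hJ1, hJ2⟩ := Nat.find_spec hex
  have hJ3 := fun j => Nat.find_min hex (m := j)
  generalize Nat.find hex = J at hJ1 hJ2 hJ3
  have hP1 : a (Nat.findGreatest (fun i => a i < k) n) < k :=
    Nat.findGreatest_spec (P := fun i => a i < k) (Nat.zero_le n) (by omega)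
  have hP2 := Nat.findGreatest_le (P := fun i => a i < k) n
  have hP3 := fun j => Nat.findGreatest_is_greatest (P := fun i => a i < k) (n := n) (k := j)
  generalize Nat.findGreatest (fun i => a i < k) n = P at hP1 hP2 hP3
  have lt : ∀ i j, i ≤ n → j ≤ n → a i < a j → i < j := by
    intro i j hi hj hij
    by_contra hc
    have := mono h (i := j) (j := i) (by omega) hi
    omega
  have hPJ := lt P J hP2 hJ1 (by omega)
  have hJ4 : a J ≠ a e + k := fun q =>
    hn ⟨e, J, lt e J (by omega) hJ1 (by omega), hJ1, by omega⟩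
  have inj : ∀ i ≤ n, ∀ j ≤ n, a i = a j → i = j := by
    intro i hi j hj q
    rcases le_total i j with l | l
    · have := mono h l hj; omega
    · have := mono h l hi; omega
  have hc : ((range (e + 1)).image (fun i => a i + k) ∪ (Ioo P J).image a).card ≤
      (Icc (k : ℤ) (a e + k)).card := by
    refine card_le_card fun z hz => ?_
    simp only [mem_union, mem_image, mem_range, mem_Ioo, mem_Icc] at hz ⊢
    rcases hz with ⟨i, hi, rfl⟩ | ⟨j, hj, rfl⟩
    · have := mono h (i := 0) (j := i) (by omega) (by omega)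
      have := mono h (i := i) (j := e) (by omega) (by omega)
      omega
    · have := hP3 j hj.1 (by omega)
      have := hJ3 j hj.2
      omega
  rw [card_union_of_disjoint, card_image_of_injOn, card_image_of_injOn] at hc
  · simp only [card_range, Nat.card_Ioo, Int.card_Icc] at hc
    have := span h hb hPJ.le hJ1 (by omega)
    push_cast at this
    omega
  · intro i hi j hj q
    simp only [coe_Ioo, Set.mem_Ioo] at hi hj
    exact inj i (by omega) j (by omega) q
  · intro i hi j hj q
    simp only [coe_range, Set.mem_Iio] at hi hj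
    exact inj i (by omega) j (by omega) (by simpa using q)
  · rw [disjoint_left]
    intro z h1 h2
    simp only [mem_image, mem_range, mem_Ioo] at h1 h2
    obtain ⟨i, hi, rfl⟩ := h1
    obtain ⟨j, hj, q⟩ := h2
    exact hn ⟨i, j, lt i j (by omega) (by omega) (by omega), by omega, by omega⟩

theorem conv {b c k n : ℕ} (hb0 : 0 < b) (hk : 0 < k) (hc : b ≤ c) (hb : b ≤ n) :
    Av b c k n ↔ Good b c k n := by
  constructor
  · rintro ⟨a, h, hn⟩
    have inj : ∀ i ≤ n, ∀ j ≤ n, a i = a j → i = j := by
      intro i hi j hj q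
      rcases le_total i j with l | l
      · have := mono h l hj; omega
      · have := mono h l hi; omega
    refine ⟨(range (n + 1)).image a, ?_, ?_, ?_⟩
    · rw [card_image_of_injOn, card_range]
      intro i hi j hj
      simp only [coe_range, Set.mem_Iio] at hi hj
      exact inj i (by omega) j (by omega)
    · simp only [mem_image, mem_range]
      rintro _ ⟨i, hi, rfl⟩ ⟨j, hj, q⟩
      refine hn ⟨i, j, ?_, by omega, by omega⟩
      by_contra hc
      have := mono h (i := j) (j := i) (by omega) (by omega)
      omega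
    · simp only [mem_image, mem_range]
      rintro _ ⟨i, hi, rfl⟩ _ ⟨j, hj, rfl⟩ q
      have hij : i + b < j := by
        by_contra hc
        rcases le_total i j with l | l
        · have := span h hb l (by omega) (by omega); omega
        · have := mono h l (by omega); omega
      refine le_trans ?_ (card_le_card (s := (Ioo i j).image a) fun z hz => ?_)
      · rw [card_image_of_injOn, Nat.card_Ioo]
        · omega
        · intro x hx y hy
          simp only [coe_Ioo, Set.mem_Ioo] at hx hy
          exact inj x (by omega) y (by omega)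
      · simp only [mem_image, mem_range, mem_Ioo, mem_filter] at hz ⊢
        obtain ⟨l, hl, rfl⟩ := hz
        have := mono h hl.1.le (by omega)
        have := mono h hl.2.le (by omega)
        exact ⟨⟨l, by omega, rfl⟩, by omega⟩
  · rintro ⟨A, hA, hav, had⟩
    let f := A.orderEmbOfFin hA
    let g : ℕ → ℤ := fun i => f ⟨min i n, by omega⟩
    have gA : ∀ i, g i ∈ A := fun i => A.orderEmbOfFin_mem hA _
    have gl : ∀ i ≤ n, ∀ j ≤ n, g i < g j ↔ i < j := by
      intro i hi j hj
      simp only [g, f.lt_iff_lt, Fin.mk_lt_mk]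
      omega
    refine ⟨fun i => g i - g 0, ⟨by simp, fun i hi => ?_, fun i hi => ?_⟩, ?_⟩
    · have := (gl i (by omega) (i + 1) hi).2 (by omega)
      simp only
      omega
    · by_contra hlt
      simp only at hlt
      have q1 := had _ (gA i) _ (gA (i + b)) (by omega)
      have q2 : (A.filter fun z => g i < z ∧ z < g (i + b)) ⊆ (Ioo i (i + b)).image g := by
        intro z hz
        simp only [mem_filter, mem_image, mem_Ioo] at hz ⊢
        obtain ⟨l, rfl⟩ : z ∈ Set.range f := by rw [range_orderEmbOfFin]; exact hz.1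
        have hl : g l = f l := by
          have := l.2
          simp only [g]
          congr 1
          ext
          simp only
          omega
        have := l.2
        rw [← hl, gl _ (by omega) _ (by omega), gl _ (by omega) _ (by omega)] at hz
        exact ⟨l, hz.2, hl⟩
      have q3 := (card_le_card q2).trans card_image_le
      rw [Nat.card_Ioo] at q3
      omega
    · rintro ⟨i, j, -, -, q⟩
      refine hav _ (gA i) ?_
      convert gA j using 1
      simp only at q
      omega

theorem small {b c k n : ℕ} (h : n < b) : Av b c k n := by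
  refine ⟨fun i => i * (k + 1), ⟨by simp, fun i _ => ?_, fun i hi => by omega⟩, ?_⟩
  · push_cast
    nlinarith
  · rintro ⟨i, j, hij, -, q⟩
    have : (i : ℤ) + 1 ≤ j := by exact_mod_cast hij
    simp only at q
    nlinarith

theorem main {b e k : ℕ} (hk : 0 < k) (he : e < b) (n : ℕ) :
    (Av b (b + e) k n ↔ Av (b + k) (b + e + 2 * k) k (n + k)) ∧
      (b ≤ n → k ≤ n → 2 * e ≤ n → ¬ Av b (b + e) k n) := by
  have b1 : b ≤ n → k ≤ n → 2 * e ≤ n → ¬ Av b (b + e) k n := by
    rintro h1 h2 h3 ⟨a, h, hn⟩
    have q1 := top h hk he h1 hn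
    have q2 := wide h hk hn (i := 0) (by omega)
    have q3 := mono h h2 le_rfl
    have q4 := h.1
    simp only [zero_add] at q2
    omega
  refine ⟨?_, b1⟩
  by_cases c1 : n < b
  · exact iff_of_true (small c1) (small (by omega))
  by_cases c2 : n < k
  · refine iff_of_true ⟨fun i => i, ⟨by simp, fun i _ => by simp, fun i _ => by simp only; omega⟩, ?_⟩
      ⟨fun i => if i < k then i else i + k, ⟨by simp [hk], fun i _ => ?_, fun i _ => ?_⟩, ?_⟩
    · rintro ⟨i, j, h1, h2, h3⟩
      simp only at h3
      omega
    · simp only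
      split_ifs <;> omega
    · simp only
      split_ifs <;> omega
    · rintro ⟨i, j, h1, h2, h3⟩
      simp only at h3
      split_ifs at h3 <;> omega
  by_cases c3 : n < 2 * e
  · rw [conv (by omega) hk (by omega) (by omega), conv (by omega) hk (by omega) (by omega)]
    exact ⟨ins (by omega) (by omega), del (by omega) (by omega)⟩
  · refine iff_of_false (b1 (by omega) (by omega) (by omega)) ?_
    rintro ⟨a, h, hn⟩
    have q1 := top (e := e + k) (by convert h using 1; omega) hk (by omega) (by omega) hn
    have q2 := wide h hk hn (i := 0) (by omega)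
    have q2' := wide h hk hn (i := k) (by omega)
    have q3 := mono h (i := k + k) (by omega) le_rfl
    have q4 := h.1
    simp only [zero_add] at q2
    push_cast at q1 q3
    omega

theorem result (b c k : ℕ) (hb : 0 < b) (hk : 0 < k) (h1 : b ≤ c) (h2 : c < 2 * b) :
    N (b + k) (c + 2 * k) k = N b c k + k := by
  classical
  obtain ⟨e, rfl⟩ := Nat.exists_eq_add_of_le h1
  have he : e < b := by omega
  have key : ∀ b c n, (∀ a, Adm b c n a → Hits k n a) ↔ ¬ Av b c k n := by
    intro b c n
    simp [Av]
  have val : ∀ (S : Set ℕ) m, IsLeast S m → sInf ((fun n : ℕ => (n : ℕ∞)) '' S) = m := by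
    intro S m h
    refine IsLeast.csInf_eq ⟨⟨m, h.1, rfl⟩, ?_⟩
    rintro _ ⟨x, hx, rfl⟩
    exact Nat.cast_le.2 (h.2 hx)
  have hex : ∃ n, ¬ Av b (b + e) k n :=
    ⟨b + k + 2 * e, (main hk he _).2 (by omega) (by omega) (by omega)⟩
  have m1 := Nat.find_spec hex
  have m2 := fun j => Nat.find_min' hex (m := j)
  generalize Nat.find hex = m at m1 m2
  have m0 : 0 < m := by
    by_contra h
    exact m1 (small (by omega))
  simp only [N, key]
  rw [val {n | 0 < n ∧ ¬ Av b (b + e) k n} m ⟨⟨m0, m1⟩, fun j hj => m2 j hj.2⟩,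
    val {n | 0 < n ∧ ¬ Av (b + k) (b + e + 2 * k) k n} (m + k)
      ⟨⟨by omega, (main hk he m).1.not.1 m1⟩, fun j hj => ?_⟩]
  · simp
  · have hjk : k ≤ j := by
      by_contra h
      exact hj.2 (small (by omega))
    obtain ⟨i, rfl⟩ := Nat.exists_eq_add_of_le' hjk
    have := m2 i ((main hk he i).1.not.2 hj.2)
    omega

end Pool.Agent.Results.MP_2aafb6_co.Shift
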